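import Pool.Agent.Helper18.RD.Stmts

/-! Project RD, row CHI: the quadratic characters of the cofactors. -/

set_option autoImplicit false

namespace Pool.Agent.Helper61.RD

open Finset Pool.Agent.Helper18.RD

lemma jac_prod (p : ℕ) (s : Finset ℕ) (g : ℕ → ℕ) :
    jacobiSym ((∏ l ∈ s, g l : ℕ) : ℤ) p = ∏ l ∈ s, jacobiSym (g l) p := by
  classical
  induction s using Finset.induction_on with
  | empty => simp
  | insert x s hx ih =>
    rw [Finset.prod_insert hx, Finset.prod_insert hx, Nat.cast_mul, jacobiSym.mul_left, ih]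

lemma dvd_of_eq_of_dvd' {x y z : ℤ} (h : y = z) (h' : x ∣ z) : x ∣ y := h ▸ h'

lemma sg_cases (q a b n l : ℕ) : sg q a b n l = 1 ∨ sg q a b n l = -1 := by
  unfold sg
  split_ifs
  · exact Or.inl rfl
  · exact Or.inr rfl

lemma mm_sq {q a n : ℕ} (h : IsSquare (q * n + a)) : (mm q a n : ℤ) ^ 2 = q * n + a := by
  obtain ⟨r, hr⟩ := h
  have : mm q a n = r := by
    unfold mm
    rw [hr]; exact Nat.sqrt_eq r
  rw [this]
  have : ((q * n + a : ℕ) : ℤ) = ((r * r : ℕ) : ℤ) := by rw [hr]
  push_cast at this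
  rw [this]; ring

theorem st_CHI (hsgn : ST_SGN) (huv : ST_UV) : ST_CHI := by
  classical
  intro q a b p hq hcop hb hp
  have hp' := hp
  unfold OP at hp'
  rw [Finset.mem_erase, Nat.mem_primeFactors] at hp'
  obtain ⟨hp2, hpp, hpq, -⟩ := hp'
  have hpa : ¬ p ∣ a := by
    intro h
    have : p ∣ Nat.gcd q a := Nat.dvd_gcd hpq h
    rw [hcop] at this
    exact hpp.one_lt.ne' (Nat.dvd_one.mp this)
  have hpZ : Prime (p : ℤ) := Nat.prime_iff_prime_int.mp hpp
  have hpmb : ¬ (p : ℤ) ∣ (mm q a b : ℤ) := by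
    intro h
    have h1 : (p : ℤ) ∣ (mm q a b : ℤ) ^ 2 := dvd_pow h (by norm_num)
    rw [mm_sq hb] at h1
    have h2 : (p : ℤ) ∣ (q : ℤ) * b := (Int.natCast_dvd_natCast.mpr hpq).mul_right _
    have h3 : (p : ℤ) ∣ (a : ℤ) := (dvd_add_right h2).mp h1
    exact hpa (Int.natCast_dvd_natCast.mp h3)
  have hp2' : ¬ (p : ℤ) ∣ 2 := by
    intro h
    have h' : p ∣ 2 := by exact_mod_cast h
    exact hp2 ((Nat.prime_dvd_prime_iff_eq hpp Nat.prime_two).mp h')
  have hval : ∀ x : ℤ, ¬ (p : ℤ) ∣ x → jacobiSym x p = 1 ∨ jacobiSym x p = -1 := by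
    intro x hx
    apply jacobiSym.eq_one_or_neg_one
    rw [Int.gcd_comm]
    exact (hpZ.coprime_iff_not_dvd.mpr hx |> Int.isCoprime_iff_gcd_eq_one.mp)
  -- the characters at the other primes
  set R := (OP q).erase p with hR
  let j : ℕ → ℤ := fun l => jacobiSym (pw q l) p
  have hj : ∀ l ∈ R, j l = 1 ∨ j l = -1 := by
    intro l hl
    rw [hR, Finset.mem_erase] at hl
    obtain ⟨hlp, hl⟩ := hl
    unfold OP at hl
    rw [Finset.mem_erase, Nat.mem_primeFactors] at hl
    apply hval
    intro h
    have h1 : p ∣ pw q l := by exact_mod_cast h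
    unfold pw at h1
    have h2 := hpp.dvd_of_dvd_pow h1
    exact hlp ((Nat.prime_dvd_prime_iff_eq hpp hl.2.1).mp h2).symm
  have hj2 : ∀ l ∈ R, j l * j l = 1 := by
    intro l hl
    rcases hj l hl with h | h <;> rw [h] <;> norm_num
  let g : ℕ → ℕ → ℤ := fun n l => if sg q a b n l = -1 then j l else 1
  let f : ℕ → ℤ := fun n => ∏ l ∈ R, g n l
  let G : ℤ := ∏ l ∈ R, j l
  have hprod1 : ∀ h : ℕ → ℤ, (∀ l ∈ R, h l = 1 ∨ h l = -1) → (∏ l ∈ R, h l = 1 ∨ ∏ l ∈ R, h l = -1) := by
    intro h hh
    refine Finset.prod_induction h (fun x => x = 1 ∨ x = -1) ?_ (Or.inl rfl) hh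
    rintro x y (rfl | rfl) (rfl | rfl) <;> norm_num
  have hf : ∀ n, f n = 1 ∨ f n = -1 := by
    intro n
    apply hprod1
    intro l hl
    show (if sg q a b n l = -1 then j l else 1) = 1 ∨ (if sg q a b n l = -1 then j l else 1) = -1
    split_ifs
    · exact hj l hl
    · exact Or.inl rfl
  have hG : G = 1 ∨ G = -1 := hprod1 j hj
  have hA : ∀ n n', ∏ l ∈ R.filter (fun l => sg q a b n l ≠ sg q a b n' l), j l = f n * f n' := by
    intro n n'
    rw [Finset.prod_filter]
    show _ = (∏ l ∈ R, g n l) * ∏ l ∈ R, g n' l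
    rw [← Finset.prod_mul_distrib]
    apply Finset.prod_congr rfl
    intro l hl
    have h2 := hj2 l hl
    show _ = (if sg q a b n l = -1 then j l else 1) * (if sg q a b n' l = -1 then j l else 1)
    rcases sg_cases q a b n l with h | h <;> rcases sg_cases q a b n' l with h' | h' <;>
      simp [h, h', h2]
  have hB : ∀ n n', ∏ l ∈ R.filter (fun l => sg q a b n l = sg q a b n' l), j l =
      G * (f n * f n') := by
    intro n n'
    rw [Finset.prod_filter]
    show _ = (∏ l ∈ R, j l) * ((∏ l ∈ R, g n l) * ∏ l ∈ R, g n' l)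
    rw [← Finset.prod_mul_distrib, ← Finset.prod_mul_distrib]
    apply Finset.prod_congr rfl
    intro l hl
    have h2 := hj2 l hl
    show _ = j l * ((if sg q a b n l = -1 then j l else 1) *
      (if sg q a b n' l = -1 then j l else 1))
    rcases sg_cases q a b n l with h | h <;> rcases sg_cases q a b n' l with h' | h' <;>
      simp [h, h', h2]
  have hEEv : jacobiSym (EE q) p = 1 ∨ jacobiSym (EE q) p = -1 := by
    apply hval
    intro h
    have h1 : p ∣ EE q := by exact_mod_cast h
    unfold EE at h1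
    have h2 := hpp.dvd_of_dvd_pow h1
    exact hp2 ((Nat.prime_dvd_prime_iff_eq hpp Nat.prime_two).mp h2)
  let lam : ℤ → ℤ := fun s => if s = 1 then jacobiSym (2 * mm q a b) p
    else jacobiSym (-(2 * mm q a b)) p
  have hlam : ∀ s, lam s = 1 ∨ lam s = -1 := by
    intro s
    show (if s = 1 then jacobiSym (2 * mm q a b) p else jacobiSym (-(2 * mm q a b)) p) = 1 ∨
      (if s = 1 then jacobiSym (2 * mm q a b) p else jacobiSym (-(2 * mm q a b)) p) = -1
    have h1 : ¬ (p : ℤ) ∣ 2 * mm q a b := by
      intro h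
      rcases hpZ.dvd_or_dvd h with h | h
      · exact hp2' h
      · exact hpmb h
    split_ifs
    · exact hval _ h1
    · exact hval _ (fun h => h1 ((dvd_neg).mp h))
  refine ⟨f, lam, fun s => lam s * (jacobiSym (EE q) p * G), hf, hlam, ?_, ?_⟩
  · intro s
    show lam s * (jacobiSym (EE q) p * G) = 1 ∨ lam s * (jacobiSym (EE q) p * G) = -1
    rcases hlam s with h1 | h1 <;> rcases hEEv with h2 | h2 <;> rcases hG with h3 | h3 <;>
      rw [h1, h2, h3] <;> norm_num
  intro n n' H
  obtain ⟨-, huc, hvd, -, -, -⟩ := huv q a b n n' H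
  have hmod : ∀ x : ℕ, IsSquare (q * x + a) →
      (sg q a b x p = 1 → (p : ℤ) ∣ (mm q a x : ℤ) - mm q a b) ∧
      (sg q a b x p = -1 → (p : ℤ) ∣ (mm q a x : ℤ) + mm q a b) := by
    intro x hx
    have hpw : (p : ℤ) ∣ (pw q p : ℤ) := by
      apply Int.natCast_dvd_natCast.mpr
      unfold pw
      apply dvd_pow_self
      exact (hpp.factorization_pos_of_dvd (by omega) hpq).ne'
    have h := hsgn q a b x p hq hcop hb hx hp
    exact ⟨fun h1 => hpw.trans (h.1 h1).1, fun h1 => hpw.trans (h.2 h1).1⟩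
  have hn := hmod n H.hn
  have hn' := hmod n' H.hn'
  constructor
  · intro hs
    -- vv
    have hv : jacobiSym (vv q a b n n') p = f n * f n' := by
      unfold vv
      rw [jac_prod, ← hA n n']
      apply Finset.prod_congr _ (fun _ _ => rfl)
      ext l
      rw [Finset.mem_filter, Finset.mem_filter, hR, Finset.mem_erase]
      constructor
      · rintro ⟨h1, h2⟩
        refine ⟨⟨?_, h1⟩, h2⟩
        rintro rfl
        exact h2 hs
      · rintro ⟨⟨h1, h3⟩, h2⟩
        exact ⟨h3, h2⟩
    have hsum : jacobiSym ((mm q a n : ℤ) + mm q a n') p = lam (sg q a b n p) := by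
      show _ = (if sg q a b n p = 1 then jacobiSym (2 * mm q a b) p
        else jacobiSym (-(2 * mm q a b)) p)
      rcases sg_cases q a b n p with h | h
      · rw [if_pos h]
        have h1 := hn.1 h
        have h2 := hn'.1 (hs ▸ h)
        apply jacobiSym.mod_left'
        apply Int.emod_eq_emod_iff_emod_sub_eq_zero.mpr
        apply Int.emod_eq_zero_of_dvd
        have h5 := dvd_add h1 h2
        refine dvd_of_eq_of_dvd' ?_ h5
        ring
      · rw [if_neg (by rw [h]; norm_num)]
        have h1 := hn.2 h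
        have h2 := hn'.2 (hs ▸ h)
        apply jacobiSym.mod_left'
        apply Int.emod_eq_emod_iff_emod_sub_eq_zero.mpr
        apply Int.emod_eq_zero_of_dvd
        have h5 := dvd_add h1 h2
        refine dvd_of_eq_of_dvd' ?_ h5
        ring
    rw [← hvd, jacobiSym.mul_left, hv] at hsum
    rcases hf n with h1 | h1 <;> rcases hf n' with h2 | h2 <;> rw [h1, h2] at hsum ⊢ <;>
      linarith
  · intro hs
    have hu : jacobiSym (uu q a b n n') p = jacobiSym (EE q) p * (G * (f n * f n')) := by
      unfold uu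
      rw [Nat.cast_mul, jacobiSym.mul_left, jac_prod, ← hB n n']
      congr 1
      apply Finset.prod_congr _ (fun _ _ => rfl)
      ext l
      rw [Finset.mem_filter, Finset.mem_filter, hR, Finset.mem_erase]
      constructor
      · rintro ⟨h1, h2⟩
        refine ⟨⟨?_, h1⟩, h2⟩
        rintro rfl
        exact hs h2
      · rintro ⟨⟨h1, h3⟩, h2⟩
        exact ⟨h3, h2⟩
    have hdiff : jacobiSym ((mm q a n : ℤ) - mm q a n') p = lam (sg q a b n p) := by
      show _ = (if sg q a b n p = 1 then jacobiSym (2 * mm q a b) p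
        else jacobiSym (-(2 * mm q a b)) p)
      rcases sg_cases q a b n p with h | h
      · rw [if_pos h]
        have h1 := hn.1 h
        have h3 : sg q a b n' p = -1 := by
          rcases sg_cases q a b n' p with h3 | h3
          · exact absurd (h.trans h3.symm) hs
          · exact h3
        have h2 := hn'.2 h3
        apply jacobiSym.mod_left'
        apply Int.emod_eq_emod_iff_emod_sub_eq_zero.mpr
        apply Int.emod_eq_zero_of_dvd
        have h5 := dvd_sub h1 h2
        refine dvd_of_eq_of_dvd' ?_ h5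
        ring
      · rw [if_neg (by rw [h]; norm_num)]
        have h1 := hn.2 h
        have h3 : sg q a b n' p = 1 := by
          rcases sg_cases q a b n' p with h3 | h3
          · exact h3
          · exact absurd (h.trans h3.symm) hs
        have h2 := hn'.1 h3
        apply jacobiSym.mod_left'
        apply Int.emod_eq_emod_iff_emod_sub_eq_zero.mpr
        apply Int.emod_eq_zero_of_dvd
        have h5 := dvd_sub h1 h2
        refine dvd_of_eq_of_dvd' ?_ h5
        ring
    rw [← huc, jacobiSym.mul_left, hu] at hdiff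
    show _ = lam (sg q a b n p) * (jacobiSym (EE q) p * G) * f n * f n'
    rcases hf n with h1 | h1 <;> rcases hf n' with h2 | h2 <;> rcases hG with h3 | h3 <;>
      rcases hEEv with h4 | h4 <;> rw [h1, h2, h3, h4] at hdiff ⊢ <;> linarith

end Pool.Agent.Helper61.RD
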