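import Pool.Agent.Helper18.RD.Stmts
import Pool.Agent.Helper85.DG.LSI
import Pool.Agent.Helper38.DG.FOU

/-! Project RD, row SV: primes not dividing `q`, by the large sieve. -/

set_option autoImplicit false

namespace Pool.Agent.Helper61.RD

open Finset Pool.Agent.Helper18.RD
open scoped ComplexConjugate

open Pool.Agent.Helper37.DG in
theorem sv_parseval (D : ℕ) (D0 : D ≠ 0) (P : Finset ℤ) :
    ∑ b ∈ Finset.range D, ‖∑ x ∈ P, fou_e D (b * x)‖ ^ 2 =
      (D : ℝ) * ((P ×ˢ P).filter (fun a => (D : ℤ) ∣ a.1 - a.2)).card := by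
  have h1 : ((∑ b ∈ Finset.range D, ‖∑ v ∈ P, fou_e D (b * v)‖ ^ 2 : ℝ) : ℂ) =
      (((D : ℝ) * ((P ×ˢ P).filter (fun a => (D : ℤ) ∣ a.1 - a.2)).card : ℝ) : ℂ) := by
    push_cast
    have h2 : ∀ b ∈ Finset.range D, ((‖∑ v ∈ P, fou_e D (b * v)‖ : ℝ) : ℂ) ^ 2 =
        ∑ a ∈ P ×ˢ P, fou_e D (b * (a.1 - a.2)) := by
      intro b _
      rw [← Complex.mul_conj', map_sum, Finset.sum_mul_sum, Finset.sum_product]
      refine Finset.sum_congr rfl fun v _ => Finset.sum_congr rfl fun w _ => ?_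
      rw [fou_e_conj, ← fou_e_add]
      congr 1
      ring
    rw [Finset.sum_congr rfl h2, Finset.sum_comm,
      Finset.sum_congr rfl (fun a _ => fou_orth D D0 (a.1 - a.2)), ← Finset.sum_filter,
      Finset.sum_const, nsmul_eq_mul, mul_comm]
  exact_mod_cast h1

theorem sv_pairs (p : ℕ) (T : Finset ℤ) (I : Finset (ZMod p)) (hI : ∀ x ∈ T, (x : ZMod p) ∈ I) :
    (T.card : ℝ) ^ 2 ≤ I.card * ((T ×ˢ T).filter (fun a => (p : ℤ) ∣ a.1 - a.2)).card := by
  classical
  have h1 : T.card = ∑ h ∈ I, (T.filter (fun x : ℤ => (x : ZMod p) = h)).card :=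
    Finset.card_eq_sum_card_fiberwise (fun x hx => hI x hx)
  have h2 : ((T ×ˢ T).filter (fun a => (p : ℤ) ∣ a.1 - a.2)).card =
      ∑ h ∈ I, (T.filter (fun x : ℤ => (x : ZMod p) = h)).card ^ 2 := by
    rw [Finset.card_eq_sum_card_fiberwise (f := fun a : ℤ × ℤ => (a.1 : ZMod p)) (t := I)]
    · apply Finset.sum_congr rfl
      intro h _
      rw [sq, ← Finset.card_product]
      congr 1
      ext ⟨x, y⟩
      simp only [Finset.mem_filter, Finset.mem_product]
      have hxy : (p : ℤ) ∣ x - y ↔ (x : ZMod p) = y := by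
        rw [← ZMod.intCast_zmod_eq_zero_iff_dvd] <;> try exact p
        rw [Int.cast_sub, sub_eq_zero]
      rw [hxy]
      constructor
      · rintro ⟨⟨⟨h3, h4⟩, h5⟩, h6⟩
        exact ⟨⟨h3, h6⟩, h4, h5 ▸ h6⟩
      · rintro ⟨⟨h3, h6⟩, h4, h5⟩
        exact ⟨⟨⟨h3, h4⟩, h6.trans h5.symm⟩, h6⟩
    · intro a ha
      rw [Finset.mem_coe, Finset.mem_filter, Finset.mem_product] at ha
      exact hI _ ha.1.1
  have h3 : T.card ^ 2 ≤ I.card * ((T ×ˢ T).filter (fun a => (p : ℤ) ∣ a.1 - a.2)).card := by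
    rw [h2]
    conv_lhs => rw [h1]
    exact sq_sum_le_card_mul_sum_sq
  exact_mod_cast h3

theorem sv_classes (p N q a : ℕ) (hp : p.Prime) (hp2 : p ≠ 2) (hpq : ¬ p ∣ q) :
    ∃ I : Finset (ZMod p), 2 * I.card ≤ p + 1 ∧ ∀ n ∈ SS N q a, ((n : ℤ) : ZMod p) ∈ I := by
  classical
  haveI : Fact p.Prime := ⟨hp⟩
  have hodd : p % 2 = 1 := hp.eq_two_or_odd.resolve_left hp2
  have hq : (q : ZMod p) ≠ 0 := by
    intro h
    exact hpq ((ZMod.natCast_eq_zero_iff q p).mp h)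
  refine ⟨(range ((p + 1) / 2)).image
    (fun m : ℕ => ((m : ZMod p) ^ 2 - (a : ZMod p)) * (q : ZMod p)⁻¹), ?_, ?_⟩
  · have := Finset.card_image_le (s := range ((p + 1) / 2))
      (f := fun m : ℕ => ((m : ZMod p) ^ 2 - (a : ZMod p)) * (q : ZMod p)⁻¹)
    rw [Finset.card_range] at this
    omega
  · intro n hn
    unfold SS at hn
    rw [Finset.mem_filter] at hn
    obtain ⟨-, r, hr⟩ := hn
    have hr' : ((q : ZMod p)) * n + a = r * r := by
      have := congrArg (Nat.cast : ℕ → ZMod p) hr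
      push_cast at this
      exact this
    have hn' : (n : ZMod p) = ((r : ZMod p) ^ 2 - a) * (q : ZMod p)⁻¹ := by
      rw [eq_mul_inv_iff_mul_eq₀ hq, sq, ← hr']
      ring
    rw [Finset.mem_image]
    have hs : ((r % p : ℕ) : ZMod p) = r := ZMod.natCast_mod r p
    have hlt : r % p < p := Nat.mod_lt _ hp.pos
    by_cases hc : r % p < (p + 1) / 2
    · refine ⟨r % p, Finset.mem_range.mpr hc, ?_⟩
      rw [hs, ← hn']
      simp
    · refine ⟨p - r % p, Finset.mem_range.mpr (by omega), ?_⟩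
      have h1 : ((p - r % p : ℕ) : ZMod p) = - r := by
        rw [Nat.cast_sub hlt.le, hs]
        simp
      rw [h1, neg_sq, ← hn']
      simp

open Pool.Agent.Helper37.DG in
theorem sv_lower (p : ℕ) (T : Finset ℤ) (I : Finset (ZMod p)) (hp : p.Prime) (hp2 : p ≠ 2)
    (hI : ∀ x ∈ T, (x : ZMod p) ∈ I) (hc : 2 * I.card ≤ p + 1) :
    (T.card : ℝ) ^ 2 / 2 ≤ ∑ a ∈ (Finset.range p).filter (fun a => a.Coprime p),
      ‖∑ x ∈ T, Complex.exp (2 * Real.pi * Complex.I * ((a : ℂ) * (x : ℂ) / (p : ℂ)))‖ ^ 2 := by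
  classical
  have h1 := sv_parseval p hp.ne_zero T
  have h2 := sv_pairs p T I hI
  have h3 : (Finset.range p).filter (fun a => a.Coprime p) = (Finset.range p).erase 0 := by
    ext x
    rw [Finset.mem_filter, Finset.mem_erase, Finset.mem_range]
    constructor
    · rintro ⟨h, h'⟩
      refine ⟨?_, h⟩
      rintro rfl
      rw [Nat.coprime_zero_left] at h'
      exact hp.one_lt.ne' h'
    · rintro ⟨h, h'⟩
      refine ⟨h', ?_⟩
      rw [Nat.coprime_comm]
      exact (Nat.Prime.coprime_iff_not_dvd hp).mpr (fun hd => by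
        have := Nat.le_of_dvd (Nat.pos_of_ne_zero h) hd
        omega)
  rw [h3]
  have h4 : ∀ b : ℕ, ‖∑ x ∈ T, Complex.exp (2 * Real.pi * Complex.I *
      ((b : ℂ) * (x : ℂ) / (p : ℂ)))‖ ^ 2 = ‖∑ x ∈ T, fou_e p (b * x)‖ ^ 2 := by
    intro b
    congr 2
    apply Finset.sum_congr rfl
    intro x _
    unfold fou_e
    congr 2
    push_cast
    ring
  rw [Finset.sum_congr rfl (fun b _ => h4 b)]
  have h5 := Finset.add_sum_erase (Finset.range p) (fun b : ℕ => ‖∑ x ∈ T, fou_e p (b * x)‖ ^ 2)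
    (Finset.mem_range.mpr hp.pos)
  have h6 : ‖∑ x ∈ T, fou_e p (((0 : ℕ) : ℤ) * x)‖ ^ 2 = (T.card : ℝ) ^ 2 := by
    simp [fou_e_zero]
  have h7 : (3 : ℝ) ≤ p := by
    have := hp.two_le
    have h : 3 ≤ p := by omega
    exact_mod_cast h
  have h8 : (2 : ℝ) * I.card ≤ p + 1 := by exact_mod_cast hc
  set cnt : ℝ := (((T ×ˢ T).filter (fun a => (p : ℤ) ∣ a.1 - a.2)).card : ℝ) with hcnt
  have h9 : 0 ≤ cnt := Nat.cast_nonneg _
  have h10 : (I.card : ℝ) * cnt ≤ (p + 1) / 2 * cnt :=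
    mul_le_mul_of_nonneg_right (by linarith) h9
  have h11 : (3 / 2) * ((p + 1) / 2 * cnt) ≤ p * cnt := by
    nlinarith
  rw [h1] at h5
  simp only [h6] at h5
  linarith

theorem st_SV (hlsi : Pool.Agent.Helper37.DG.ST_LSI) : ST_SV := by
  classical
  obtain ⟨C, hC, H⟩ := hlsi
  refine ⟨2 * C, by positivity, ?_⟩
  intro N q a P hN hP _
  set T : Finset ℤ := (SS N q a).map Nat.castEmbedding with hT
  have hTc : T.card = (SS N q a).card := Finset.card_map _
  have hTs : T ⊆ Finset.Ico (0 : ℤ) (N : ℤ) := by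
    intro x hx
    rw [hT, Finset.mem_map] at hx
    obtain ⟨n, hn, rfl⟩ := hx
    unfold SS at hn
    rw [Finset.mem_filter, Finset.mem_range] at hn
    rw [Finset.mem_Ico]
    simp only [Nat.castEmbedding_apply]
    omega
  have h1 := H N P T hN hP hTs
  set PR := (Icc 1 P).filter (fun p => p.Prime ∧ p ≠ 2 ∧ ¬ p ∣ q) with hPR
  have h2 : (PR.card : ℝ) * ((T.card : ℝ) ^ 2 / 2) ≤
      ∑ q ∈ Finset.Icc 1 P, ∑ a ∈ (Finset.range q).filter (fun a => a.Coprime q),
    ‖∑ x ∈ T, Complex.exp (2 * Real.pi * Complex.I * ((a : ℂ) * (x : ℂ) / (q : ℂ)))‖ ^ 2 := by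
    calc (PR.card : ℝ) * ((T.card : ℝ) ^ 2 / 2) = ∑ p ∈ PR, (T.card : ℝ) ^ 2 / 2 := by
          rw [Finset.sum_const, nsmul_eq_mul]
      _ ≤ ∑ q ∈ PR, ∑ a ∈ (Finset.range q).filter (fun a => a.Coprime q),
          ‖∑ x ∈ T, Complex.exp (2 * Real.pi * Complex.I * ((a : ℂ) * (x : ℂ) / (q : ℂ)))‖ ^ 2 := by
          apply Finset.sum_le_sum
          intro p hp
          rw [hPR, Finset.mem_filter] at hp
          obtain ⟨-, hp, hp2, hpq⟩ := hp
          obtain ⟨I, hI, hI'⟩ := sv_classes p N q a hp hp2 hpq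
          apply sv_lower p T I hp hp2 _ hI
          intro x hx
          rw [hT, Finset.mem_map] at hx
          obtain ⟨n, hn, rfl⟩ := hx
          exact hI' n hn
      _ ≤ _ := by
          apply Finset.sum_le_sum_of_subset_of_nonneg (Finset.filter_subset _ _)
          intro i _ _
          positivity
  have h3 := h2.trans h1
  rw [← hTc]
  rcases Nat.eq_zero_or_pos T.card with h0 | h0
  · rw [h0]
    simp only [Nat.cast_zero, mul_zero]
    positivity
  · have h0' : (0 : ℝ) < T.card := by exact_mod_cast h0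
    have h4 : (PR.card : ℝ) * T.card * (T.card / 2) ≤ C * ((N : ℝ) + (P : ℝ) ^ 2) * 2 *
        (T.card / 2) := by
      calc (PR.card : ℝ) * T.card * (T.card / 2) = (PR.card : ℝ) * ((T.card : ℝ) ^ 2 / 2) := by ring
        _ ≤ C * ((N : ℝ) + (P : ℝ) ^ 2) * T.card := h3
        _ = _ := by ring
    have h5 := le_of_mul_le_mul_right h4 (by positivity)
    linarith

end Pool.Agent.Helper61.RD
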